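import Mathlib

/-!
# Lifting properties in the category of topological spaces: elementary language
-/

namespace Pool.Agent.X238.Orth

set_option linter.unusedSectionVars false
set_option linter.unusedVariables false

open CategoryTheory Topology

universe u

/-- classes of morphisms -/
abbrev Cls := MorphismProperty TopCat.{u}

/-- the lifting property for maps of spaces -/
def Lift {A B X Y : Type u} [TopologicalSpace A] [TopologicalSpace B] [TopologicalSpace X]
    [TopologicalSpace Y] (f : A → B) (g : X → Y) : Prop :=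
  ∀ (a : A → X) (b : B → Y), Continuous a → Continuous b → (∀ x, g (a x) = b (f x)) →
    ∃ h : B → X, Continuous h ∧ (∀ x, h (f x) = a x) ∧ ∀ y, g (h y) = b y

/-- membership of a map in a class -/
def Mem (P : Cls.{u}) {A B : Type u} [TopologicalSpace A] [TopologicalSpace B]
    (f : A → B) : Prop :=
  ∃ hf : Continuous f, P (TopCat.ofHom ⟨f, hf⟩)

theorem lift_iff {A B X Y : Type u} [TopologicalSpace A] [TopologicalSpace B]
    [TopologicalSpace X] [TopologicalSpace Y] (f : C(A, B)) (g : C(X, Y)) :
    HasLiftingProperty (TopCat.ofHom f) (TopCat.ofHom g) ↔ Lift f g := by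
  constructor
  · intro h a b ha hb hab
    have sq : CommSq (TopCat.ofHom ⟨a, ha⟩) (TopCat.ofHom f) (TopCat.ofHom g)
        (TopCat.ofHom ⟨b, hb⟩) := ⟨by
      ext x
      exact hab x⟩
    obtain ⟨⟨l, h1, h2⟩⟩ := (h.sq_hasLift sq).exists_lift
    refine ⟨l, l.hom.continuous, fun x => ?_, fun y => ?_⟩
    · exact ConcreteCategory.congr_hom h1 x
    · exact ConcreteCategory.congr_hom h2 y
  · intro h
    refine ⟨fun {a b} sq => ⟨?_⟩⟩
    obtain ⟨l, hl, h1, h2⟩ := h a b a.hom.continuous b.hom.continuous
      (fun x => ConcreteCategory.congr_hom sq.w x)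
    refine ⟨⟨TopCat.ofHom ⟨l, hl⟩, ?_, ?_⟩⟩
    · ext x
      exact h1 x
    · ext x
      exact h2 x

theorem mem_llp (P : Cls.{u}) {A B : Type u} [TopologicalSpace A] [TopologicalSpace B]
    (f : A → B) : Mem P.llp f ↔ Continuous f ∧
      ∀ (X Y : Type u) [TopologicalSpace X] [TopologicalSpace Y] (g : X → Y),
        Mem P g → Lift f g := by
  constructor
  · rintro ⟨hf, h⟩
    refine ⟨hf, fun X Y _ _ g ⟨hg, hP⟩ => ?_⟩
    exact (lift_iff ⟨f, hf⟩ ⟨g, hg⟩).1 (h _ hP)
  · rintro ⟨hf, h⟩
    refine ⟨hf, fun X Y g hg => ?_⟩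
    exact (lift_iff ⟨f, hf⟩ g.hom).2 (h X Y g ⟨g.hom.continuous, hg⟩)

theorem mem_rlp (P : Cls.{u}) {X Y : Type u} [TopologicalSpace X] [TopologicalSpace Y]
    (g : X → Y) : Mem P.rlp g ↔ Continuous g ∧
      ∀ (A B : Type u) [TopologicalSpace A] [TopologicalSpace B] (f : A → B),
        Mem P f → Lift f g := by
  constructor
  · rintro ⟨hg, h⟩
    refine ⟨hg, fun A B _ _ f ⟨hf, hP⟩ => ?_⟩
    exact (lift_iff ⟨f, hf⟩ ⟨g, hg⟩).1 (h _ hP)
  · rintro ⟨hg, h⟩
    refine ⟨hg, fun A B f hf => ?_⟩
    exact (lift_iff f.hom ⟨g, hg⟩).2 (h A B f ⟨f.hom.continuous, hf⟩)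

theorem le_of_mem (P Q : Cls.{u})
    (h : ∀ (A B : Type u) [TopologicalSpace A] [TopologicalSpace B] (f : A → B),
      Mem P f → Mem Q f) : P ≤ Q := by
  intro A B f hf
  exact (h A B f ⟨f.hom.continuous, hf⟩).2

theorem mem_of_le {P Q : Cls.{u}} (h : P ≤ Q) {A B : Type u} [TopologicalSpace A]
    [TopologicalSpace B] {f : A → B} (hf : Mem P f) : Mem Q f :=
  ⟨hf.1, h _ hf.2⟩

theorem Mem.cont {P : Cls.{u}} {A B : Type u} [TopologicalSpace A]
    [TopologicalSpace B] {f : A → B} (hf : Mem P f) : Continuous f := hf.1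

theorem Mem.liftL {P : Cls.{u}} {A B X Y : Type u} [TopologicalSpace A]
    [TopologicalSpace B] [TopologicalSpace X] [TopologicalSpace Y] {f : A → B} {g : X → Y}
    (hf : Mem P.llp f) (hg : Mem P g) : Lift f g :=
  ((mem_llp P f).1 hf).2 X Y g hg

theorem Mem.liftR {P : Cls.{u}} {A B X Y : Type u} [TopologicalSpace A]
    [TopologicalSpace B] [TopologicalSpace X] [TopologicalSpace Y] {f : A → B} {g : X → Y}
    (hg : Mem P.rlp g) (hf : Mem P f) : Lift f g :=
  ((mem_rlp P g).1 hg).2 A B f hf

theorem llp_anti {P Q : Cls.{u}} (h : P ≤ Q) : Q.llp ≤ P.llp :=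
  fun _ _ _ hf _ _ g hg => hf g (h g hg)

theorem rlp_anti {P Q : Cls.{u}} (h : P ≤ Q) : Q.rlp ≤ P.rlp :=
  fun _ _ _ hf _ _ g hg => hf g (h g hg)

theorem le_llp_rlp (P : Cls.{u}) : P ≤ P.llp.rlp := fun _ _ f hf _ _ _ hg => hg f hf

theorem le_rlp_llp (P : Cls.{u}) : P ≤ P.rlp.llp := fun _ _ f hf _ _ _ hg => hg f hf

theorem gal_l (P : Cls.{u}) : P.llp.rlp.llp = P.llp :=
  le_antisymm (llp_anti (le_llp_rlp P)) (le_rlp_llp P.llp)

theorem gal_r (P : Cls.{u}) : P.rlp.llp.rlp = P.rlp :=
  le_antisymm (rlp_anti (le_rlp_llp P)) (le_llp_rlp P.rlp)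

/-! ### test spaces -/

/-- the indiscrete two point space -/
inductive I2 : Type u
  | x0
  | x1

instance : TopologicalSpace I2.{u} := ⊤

/-- the discrete two point space -/
inductive D2 : Type u
  | x0
  | x1

instance : TopologicalSpace D2.{u} := ⊥

instance : DiscreteTopology D2.{u} := ⟨rfl⟩

/-- the Sierpinski space -/
abbrev Sp : Type u := ULift.{u} Prop

/-- the one point space -/
abbrev Pt : Type u := PUnit.{u + 1}

/-- the constant map -/
def toPt (X : Type u) : X → Pt.{u} := fun _ => PUnit.unit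

theorem cont_toPt (X : Type u) [TopologicalSpace X] : Continuous (toPt X) := continuous_const

/-- the map from the empty space -/
def fromE (X : Type u) : PEmpty.{u + 1} → X := fun x => x.elim

theorem cont_fromE (X : Type u) [TopologicalSpace X] : Continuous (fromE X) :=
  continuous_of_discreteTopology

/-- `X` with the topology induced by `g` -/
def Wt {X Y : Type u} (_ : X → Y) : Type u := X

instance {X Y : Type u} [t : TopologicalSpace Y] (g : X → Y) : TopologicalSpace (Wt g) :=
  t.induced g

/-- the identity map onto `Wt g` -/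
def toWt {X Y : Type u} (g : X → Y) : X → Wt g := fun x => x

/-- the map `g` on `Wt g` -/
def ofWt {X Y : Type u} (g : X → Y) : Wt g → Y := fun x => g x

section

variable {A B X Y : Type u} [TopologicalSpace A] [TopologicalSpace B] [TopologicalSpace X]
  [TopologicalSpace Y]

theorem cont_toWt (g : X → Y) (hg : Continuous g) : Continuous (toWt g) :=
  continuous_induced_rng.2 hg

theorem cont_ofWt (g : X → Y) : Continuous (ofWt g) := continuous_induced_dom

theorem inducing_of_wt (g : X → Y) (hg : Continuous g) (h : Lift (toWt g) g) :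
    IsInducing g := by
  obtain ⟨k, hk, h1, -⟩ := h id (ofWt g) continuous_id (cont_ofWt g) (fun _ => rfl)
  have hk' : k = fun x => x := funext fun x => h1 x
  refine ⟨le_antisymm (continuous_iff_le_induced.1 hg) ?_⟩
  rw [hk'] at hk
  intro U hU
  exact hU.preimage hk

theorem inj_of_two (g : X → Y) (h : Lift (toPt D2.{u}) g) : Function.Injective g := by
  intro x x' hx
  obtain ⟨k, -, h1, -⟩ := h (fun t => match t with | D2.x0 => x | D2.x1 => x')
    (fun _ => g x) continuous_of_discreteTopology continuous_const (by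
      intro t
      cases t
      · rfl
      · exact hx.symm)
  exact (h1 D2.x0).symm.trans (h1 D2.x1)

theorem surj_of_empty (g : X → Y) (h : Lift (fromE Pt.{u}) g) : Function.Surjective g := by
  intro y
  obtain ⟨k, -, -, h2⟩ := h (fromE X) (fun _ => y) (cont_fromE X) continuous_const
    (fun x => x.elim)
  exact ⟨k PUnit.unit, h2 _⟩

theorem surj_of_range (f : A → B) (hf : Continuous f)
    (h : Lift f (Subtype.val : Set.range f → B)) : Function.Surjective f := by
  obtain ⟨k, -, -, h2⟩ := h (fun x => ⟨f x, x, rfl⟩) id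
    (hf.subtype_mk _) continuous_id (fun _ => rfl)
  intro y
  obtain ⟨x, hx⟩ := (k y).2
  exact ⟨x, hx.trans (h2 y)⟩

theorem inj_of_ind (f : A → B) (h : Lift f (toPt I2.{u})) : Function.Injective f := by
  classical
  intro x x' hx
  by_contra hne
  obtain ⟨k, -, h1, -⟩ := h (fun t => if t = x then I2.x0 else I2.x1) (toPt B)
    continuous_top (cont_toPt B) (fun _ => rfl)
  have e1 := h1 x
  have e2 := h1 x'
  rw [hx] at e1
  rw [e1] at e2
  simp [Ne.symm hne] at e2

theorem inducing_of_sierp (f : A → B) (hf : Continuous f) (h : Lift f (toPt Sp.{u})) :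
    IsInducing f := by
  refine ⟨le_antisymm (continuous_iff_le_induced.1 hf) ?_⟩
  intro U hU
  obtain ⟨k, hk, h1, -⟩ := h (fun t => ULift.up (t ∈ U)) (toPt B)
    (continuous_uliftUp.comp (isOpen_iff_continuous_mem.1 hU)) (cont_toPt B) (fun _ => rfl)
  refine ⟨{y | (k y).down}, ?_, ?_⟩
  · rw [isOpen_iff_continuous_mem]
    exact continuous_uliftDown.comp hk
  · ext x
    change (k (f x)).down ↔ x ∈ U
    rw [h1 x]

/-- fibres are `T1` -/
def T1f (g : X → Y) : Prop := ∀ x x', x ⤳ x' → g x = g x' → x = x'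

theorem t1_of_sierp (g : X → Y) (hg : Continuous g) (h : Lift (toPt Sp.{u}) g) : T1f g := by
  classical
  intro x x' hs hx
  have hc : Continuous (fun t : Sp.{u} => if t.down then x else x') := by
    rw [continuous_def]
    intro U hU
    by_cases h' : x' ∈ U
    · have : (fun t : Sp.{u} => if t.down then x else x') ⁻¹' U = Set.univ := by
        ext t
        simp only [Set.mem_preimage, Set.mem_univ, iff_true]
        split_ifs
        · exact hs.mem_open hU h'
        · exact h'
      rw [this]
      exact isOpen_univ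
    · by_cases h'' : x ∈ U
      · have : (fun t : Sp.{u} => if t.down then x else x') ⁻¹' U = {t | t.down} := by
          ext t
          simp only [Set.mem_preimage]
          split_ifs with ht
          · exact ⟨fun _ => ht, fun _ => h''⟩
          · exact ⟨fun h => absurd h h', fun h => absurd h ht⟩
        rw [this, isOpen_iff_continuous_mem]
        exact continuous_uliftDown
      · have : (fun t : Sp.{u} => if t.down then x else x') ⁻¹' U = ∅ := by
          ext t
          simp only [Set.mem_preimage, Set.mem_empty_iff_false, iff_false]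
          split_ifs
          · exact h''
          · exact h'
        rw [this]
        exact isOpen_empty
  obtain ⟨k, -, h1, -⟩ := h (fun t => if t.down then x else x') (fun _ => g x) hc
    continuous_const (by
      intro t
      split_ifs
      · rfl
      · exact hx.symm)
  have e1 := h1 ⟨True⟩
  have e2 := h1 ⟨False⟩
  simp only [if_true, if_false] at e1 e2
  exact e1.symm.trans e2

/-- a map which lifts against itself is invertible -/
theorem iso_of_self (f : A → B) (hf : Continuous f) (h : Lift f f) :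
    ∃ k : B → A, Continuous k ∧ (∀ x, k (f x) = x) ∧ ∀ y, f (k y) = y :=
  h id id continuous_id continuous_id (fun _ => rfl)

end

/-- isomorphisms -/
abbrev Isos : Cls.{u} := MorphismProperty.isomorphisms TopCat.{u}

theorem mem_isos {A B : Type u} [TopologicalSpace A] [TopologicalSpace B] (f : A → B)
    (hf : Continuous f)
    (h : ∃ k : B → A, Continuous k ∧ (∀ x, k (f x) = x) ∧ ∀ y, f (k y) = y) :
    Mem Isos.{u} f := by
  refine ⟨hf, ?_⟩
  obtain ⟨k, hk, h1, h2⟩ := h
  change IsIso _
  refine ⟨TopCat.ofHom ⟨k, hk⟩, ?_, ?_⟩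
  · ext x
    exact h1 x
  · ext x
    exact h2 x

theorem isos_le_llp (C : Cls.{u}) : Isos.{u} ≤ C.llp := by
  intro A B f hf
  change IsIso _ at hf
  exact C.llp_of_isIso f

theorem isos_le_rlp (C : Cls.{u}) : Isos.{u} ≤ C.rlp := by
  intro A B f hf
  change IsIso _ at hf
  exact C.rlp_of_isIso f

/-- first collapse lemma -/
theorem llp_isos (C : Cls.{u})
    (hS : ∀ (A B : Type u) [TopologicalSpace A] [TopologicalSpace B] (f : A → B),
      Continuous f → Function.Surjective f → Mem C f)
    (hP : Mem C (fun _ : Pt.{u} => I2.x0.{u})) : C.llp = Isos.{u} := by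
  classical
  refine le_antisymm (le_of_mem _ _ fun A B _ _ f hf => ?_) (isos_le_llp C)
  have hs : Function.Surjective f := by
    obtain ⟨k, -, -, h2⟩ := hf.liftL hP (toPt A)
      (fun y => if y ∈ Set.range f then I2.x0 else I2.x1) (cont_toPt A) continuous_top (by
        intro x
        simp)
    intro y
    by_contra hy
    have : I2.x0 = if y ∈ Set.range f then I2.x0 else I2.x1 := h2 y
    rw [if_neg (show ¬ y ∈ Set.range f from hy)] at this
    cases this
  exact mem_isos f hf.cont (iso_of_self f hf.cont (hf.liftL (hS A B f hf.cont hs)))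

/-- second collapse lemma -/
theorem rlp_isos (C : Cls.{u})
    (hM : ∀ (A B : Type u) [TopologicalSpace A] [TopologicalSpace B] (f : A → B),
      Continuous f → Function.Injective f → Mem C f)
    (h2 : Mem C (toPt D2.{u})) : C.rlp = Isos.{u} := by
  refine le_antisymm (le_of_mem _ _ fun X Y _ _ g hg => ?_) (isos_le_rlp C)
  have hi : Function.Injective g := inj_of_two g (hg.liftR h2)
  have hs : Function.Surjective g :=
    surj_of_empty g (hg.liftR (hM _ _ _ (cont_fromE _) (fun x => x.elim)))
  have hI : IsInducing g := inducing_of_wt g hg.cont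
    (hg.liftR (hM _ _ _ (cont_toWt g hg.cont) (fun _ _ h => h)))
  refine mem_isos g hg.cont ?_
  refine ⟨Function.surjInv hs, ?_, ?_, Function.surjInv_eq hs⟩
  · rw [hI.continuous_iff]
    have : g ∘ Function.surjInv hs = id := funext (Function.surjInv_eq hs)
    rw [this]
    exact continuous_id
  · intro x
    exact hi (Function.surjInv_eq hs (g x))

theorem top_llp : (⊤ : Cls.{u}).llp = Isos.{u} :=
  llp_isos ⊤ (fun _ _ _ _ _ hf _ => ⟨hf, trivial⟩) ⟨continuous_const, trivial⟩

theorem top_rlp : (⊤ : Cls.{u}).rlp = Isos.{u} :=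
  rlp_isos ⊤ (fun _ _ _ _ _ hf _ => ⟨hf, trivial⟩) ⟨cont_toPt _, trivial⟩

theorem isos_llp : Isos.{u}.llp = ⊤ := by
  refine le_antisymm le_top ?_
  rw [← top_rlp]
  exact le_rlp_llp _

theorem isos_rlp : Isos.{u}.rlp = ⊤ := by
  refine le_antisymm le_top ?_
  rw [← top_llp]
  exact le_llp_rlp _

end Pool.Agent.X238.Orth
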