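import Pool.Agent.X238.Orth.Basic

/-!
# The classes obtained from the map from the empty space to the point
-/

namespace Pool.Agent.X238.Orth

set_option linter.unusedSectionVars false
set_option linter.unusedVariables false

open CategoryTheory Topology

universe u

/-- the class consisting of the map from the empty space to the point -/
def C0 : Cls.{u} :=
  MorphismProperty.ofHoms (fun _ : Unit =>
    TopCat.ofHom (⟨fromE Pt.{u}, cont_fromE _⟩ : C(PEmpty.{u + 1}, Pt.{u})))

def cL : Cls.{u} := C0.llp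
def cS : Cls.{u} := C0.rlp
def c2 : Cls.{u} := cL.rlp
def SE : Cls.{u} := c2.rlp
def Sg : Cls.{u} := SE.llp
def cM : Cls.{u} := SE.rlp
def cQ : Cls.{u} := cM.llp
def Is : Cls.{u} := cM.rlp
def cT : Cls.{u} := Is.rlp
def De : Cls.{u} := cS.llp
def cE : Cls.{u} := cS.rlp
def cJ : Cls.{u} := cE.rlp
def T1 : Cls.{u} := cJ.rlp
def C18 : Cls.{u} := T1.llp
def C11 : Cls.{u} := De.llp
def cK : Cls.{u} := C11.rlp
def cG : Cls.{u} := cK.rlp
def CE : Cls.{u} := cG.llp
def DM : Cls.{u} := CE.llp

section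

variable {A B X Y : Type u} [TopologicalSpace A] [TopologicalSpace B] [TopologicalSpace X]
  [TopologicalSpace Y]

theorem mem_C0 : Mem C0.{u} (fromE Pt.{u}) := ⟨cont_fromE _, MorphismProperty.ofHoms.mk ()⟩

theorem mem_L (f : A → B) : Mem cL.{u} f ↔ Continuous f ∧ (Nonempty A ∨ IsEmpty B) := by
  constructor
  · intro h
    refine ⟨h.cont, ?_⟩
    rcases isEmpty_or_nonempty A with hA | hA
    · right
      obtain ⟨k, -, -, -⟩ := h.liftL mem_C0 (fun x => (hA.false x).elim) (toPt B)
        (continuous_of_const (fun x => (hA.false x).elim)) (cont_toPt B)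
        (fun x => (hA.false x).elim)
      exact ⟨fun y => (k y).elim⟩
    · exact Or.inl hA
  · rintro ⟨hf, h⟩
    refine ⟨hf, ?_⟩
    rintro X Y g ⟨⟩
    refine (lift_iff ⟨f, hf⟩ ⟨fromE Pt, cont_fromE _⟩).2 ?_
    intro a b ha hb hab
    rcases h with h | h
    · exact (a h.some).elim
    · exact ⟨fun y => (h.false y).elim, continuous_of_const (fun y => (h.false y).elim),
        fun x => (a x).elim, fun y => (h.false y).elim⟩

theorem mem_S (g : X → Y) : Mem cS.{u} g ↔ Continuous g ∧ Function.Surjective g := by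
  constructor
  · intro h
    exact ⟨h.cont, surj_of_empty g (h.liftR mem_C0)⟩
  · rintro ⟨hg, h⟩
    refine ⟨hg, ?_⟩
    rintro A B f ⟨⟩
    refine (lift_iff ⟨fromE Pt, cont_fromE _⟩ ⟨g, hg⟩).2 ?_
    intro a b ha hb hab
    obtain ⟨x, hx⟩ := h (b PUnit.unit)
    exact ⟨fun _ => x, continuous_const, fun x => x.elim, fun _ => hx⟩

theorem mem_c2_empty : Mem c2.{u} (fromE Y) := by
  refine (mem_rlp _ _).2 ⟨cont_fromE _, ?_⟩
  intro A B _ _ f hf a b ha hb hab
  rcases ((mem_L f).1 hf).2 with h | h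
  · exact (a h.some).elim
  · exact ⟨fun y => (h.false y).elim, continuous_of_const (fun y => (h.false y).elim),
      fun x => (a x).elim, fun y => (h.false y).elim⟩

theorem mem_SE (g : X → Y) : Mem SE.{u} g ↔ Continuous g ∧
    ∃ s : Y → X, Continuous s ∧ ∀ y, g (s y) = y := by
  constructor
  · intro h
    refine ⟨h.cont, ?_⟩
    obtain ⟨s, hs, -, h2⟩ := h.liftR mem_c2_empty (fromE X) id (cont_fromE X) continuous_id
      (fun x => x.elim)
    exact ⟨s, hs, h2⟩
  · rintro ⟨hg, s, hs, h2⟩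
    refine (mem_rlp _ _).2 ⟨hg, ?_⟩
    intro A B _ _ f hf a b ha hb hab
    rcases isEmpty_or_nonempty A with hA | hA
    · exact ⟨fun y => s (b y), hs.comp hb, fun x => (hA.false x).elim, fun y => h2 _⟩
    · have hL : Mem cL.{u} f := (mem_L f).2 ⟨hf.cont, Or.inl hA⟩
      obtain ⟨k, hk, h3, h4⟩ := iso_of_self f hf.cont (hf.liftR hL)
      exact ⟨fun y => a (k y), ha.comp hk, fun x => congrArg a (h3 x),
        fun y => (hab _).trans (congrArg b (h4 y))⟩

theorem SE_le_S : SE.{u} ≤ cS := by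
  refine le_of_mem _ _ fun A B _ _ f hf => ?_
  obtain ⟨hc, s, -, hs⟩ := (mem_SE f).1 hf
  exact (mem_S f).2 ⟨hc, fun y => ⟨s y, hs y⟩⟩

theorem mem_M (g : X → Y) : Mem cM.{u} g ↔ Continuous g ∧ Function.Injective g := by
  constructor
  · intro h
    refine ⟨h.cont, inj_of_two g (h.liftR ?_)⟩
    exact (mem_SE _).2 ⟨cont_toPt _, fun _ => D2.x0, continuous_const, fun _ => rfl⟩
  · rintro ⟨hg, h⟩
    refine (mem_rlp _ _).2 ⟨hg, ?_⟩
    intro A B _ _ f hf a b ha hb hab
    obtain ⟨hc, s, hs, h2⟩ := (mem_SE f).1 hf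
    refine ⟨fun y => a (s y), ha.comp hs, fun x => h ?_, fun y => ?_⟩
    · rw [hab, h2, hab]
    · rw [hab, h2]

theorem mem_Is (g : X → Y) : Mem Is.{u} g ↔ Continuous g ∧ Function.Surjective g ∧
    IsInducing g := by
  constructor
  · intro h
    refine ⟨h.cont, surj_of_empty g (h.liftR ?_), inducing_of_wt g h.cont (h.liftR ?_)⟩
    · exact (mem_M _).2 ⟨cont_fromE _, fun x => x.elim⟩
    · exact (mem_M _).2 ⟨cont_toWt g h.cont, fun _ _ h => h⟩
  · rintro ⟨hg, hs, hi⟩
    refine (mem_rlp _ _).2 ⟨hg, ?_⟩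
    intro A B _ _ f hf a b ha hb hab
    obtain ⟨hc, hinj⟩ := (mem_M f).1 hf
    classical
    let h : B → X := fun y => if hy : ∃ x, f x = y then a hy.choose else Function.surjInv hs (b y)
    have h1 : ∀ x, h (f x) = a x := by
      intro x
      have hy : ∃ x', f x' = f x := ⟨x, rfl⟩
      change (if hy : ∃ x', f x' = f x then a hy.choose else _) = a x
      rw [dif_pos hy]
      exact congrArg a (hinj hy.choose_spec)
    have h2 : ∀ y, g (h y) = b y := by
      intro y
      by_cases hy : ∃ x, f x = y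
      · obtain ⟨x, rfl⟩ := hy
        rw [h1, hab]
      · change g (if hy : ∃ x', f x' = y then a hy.choose else _) = b y
        rw [dif_neg hy]
        exact Function.surjInv_eq hs _
    refine ⟨h, ?_, h1, h2⟩
    rw [hi.continuous_iff]
    have : g ∘ h = b := funext h2
    rw [this]
    exact hb

/-- lifting against an inducing map reduces to a set level lift -/
theorem lift_of_inj_inducing (f : A → B) (g : X → Y) (hi : IsInducing g)
    (hinj : Function.Injective g)
    (hr : ∀ (a : A → X) (b : B → Y), Continuous b → (∀ x, g (a x) = b (f x)) →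
      ∀ y, ∃ x, g x = b y) : Lift f g := by
  intro a b ha hb hab
  have h0 := hr a b hb hab
  refine ⟨fun y => (h0 y).choose, ?_, fun x => ?_, fun y => (h0 y).choose_spec⟩
  · rw [hi.continuous_iff]
    have : g ∘ (fun y => (h0 y).choose) = b := funext fun y => (h0 y).choose_spec
    rw [this]
    exact hb
  · apply hinj
    rw [(h0 (f x)).choose_spec, hab]

theorem mem_E (g : X → Y) : Mem cE.{u} g ↔ IsEmbedding g := by
  constructor
  · intro h
    refine ⟨inducing_of_wt g h.cont (h.liftR ?_), inj_of_two g (h.liftR ?_)⟩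
    · exact (mem_S _).2 ⟨cont_toWt g h.cont, fun x => ⟨x, rfl⟩⟩
    · exact (mem_S _).2 ⟨cont_toPt _, fun _ => ⟨D2.x0, rfl⟩⟩
  · intro hg
    refine (mem_rlp _ _).2 ⟨hg.continuous, ?_⟩
    intro A B _ _ f hf
    obtain ⟨hc, hs⟩ := (mem_S f).1 hf
    refine lift_of_inj_inducing f g hg.toIsInducing hg.injective ?_
    intro a b hb hab y
    obtain ⟨x, rfl⟩ := hs y
    exact ⟨a x, hab x⟩

theorem mem_J_sierp : Mem cJ.{u} (toPt Sp.{u}) := by
  refine (mem_rlp _ _).2 ⟨cont_toPt _, ?_⟩
  intro A B _ _ f hf a b ha hb hab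
  have hE := (mem_E f).1 hf
  have hU : IsOpen {x | (a x).down} := by
    rw [isOpen_iff_continuous_mem]
    exact continuous_uliftDown.comp ha
  obtain ⟨V, hV, hV2⟩ := hE.isOpen_iff.1 hU
  refine ⟨fun y => ULift.up (y ∈ V), continuous_uliftUp.comp (isOpen_iff_continuous_mem.1 hV),
    fun x => ?_, fun _ => rfl⟩
  have : (f x ∈ V) = (a x).down := by
    have h3 : x ∈ f ⁻¹' V ↔ x ∈ {x | (a x).down} := by rw [hV2]
    exact propext h3
  change ULift.up (f x ∈ V) = a x
  rw [this]

theorem mem_J_ind : Mem cJ.{u} (toPt I2.{u}) := by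
  refine (mem_rlp _ _).2 ⟨cont_toPt _, ?_⟩
  intro A B _ _ f hf a b ha hb hab
  have hE := (mem_E f).1 hf
  classical
  refine ⟨fun y => if hy : ∃ x, f x = y then a hy.choose else I2.x0, continuous_top,
    fun x => ?_, fun _ => rfl⟩
  have hy : ∃ x', f x' = f x := ⟨x, rfl⟩
  change (if hy : ∃ x', f x' = f x then a hy.choose else _) = a x
  rw [dif_pos hy]
  exact congrArg a (hE.injective hy.choose_spec)

/-! ### real equalities, first part -/

theorem L_llp : cL.{u}.llp = Isos.{u} := by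
  refine llp_isos _ (fun A B _ _ f hc hs => ?_) ?_
  · refine (mem_L f).2 ⟨hc, ?_⟩
    rcases isEmpty_or_nonempty B with hB | hB
    · exact Or.inr hB
    · obtain ⟨x, -⟩ := hs hB.some
      exact Or.inl ⟨x⟩
  · exact (mem_L _).2 ⟨continuous_const, Or.inl ⟨PUnit.unit⟩⟩

theorem Is_llp : Is.{u}.llp = cM := by
  refine le_antisymm (le_of_mem _ _ fun A B _ _ f hf => ?_) (le_rlp_llp cM)
  refine (mem_M f).2 ⟨hf.cont, inj_of_ind f (hf.liftL ?_)⟩
  refine (mem_Is _).2 ⟨cont_toPt _, fun _ => ⟨I2.x0, rfl⟩, ⟨?_⟩⟩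
  refine le_antisymm (continuous_iff_le_induced.1 (cont_toPt _)) ?_
  exact le_top

/-- fibres are `T0` -/
theorem mem_T (g : X → Y) (hg : Continuous g)
    (h : ∀ x x', Inseparable x x' → g x = g x' → x = x') : Mem cT.{u} g := by
  refine (mem_rlp _ _).2 ⟨hg, ?_⟩
  intro A B _ _ f hf a b ha hb hab
  obtain ⟨hc, hs, hi⟩ := (mem_Is f).1 hf
  have h1 : ∀ x x', f x = f x' → a x = a x' := by
    intro x x' hx
    refine h _ _ ?_ (by rw [hab, hab, hx])
    have : Inseparable x x' := hi.inseparable_iff.1 (by rw [hx])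
    exact this.map ha
  refine ⟨fun y => a (Function.surjInv hs y), ?_, fun x => ?_, fun y => ?_⟩
  · rw [continuous_def]
    intro U hU
    obtain ⟨V, hV, hV2⟩ := hi.isOpen_iff.1 (hU.preimage ha)
    have : (fun y => a (Function.surjInv hs y)) ⁻¹' U = V := by
      ext y
      have h3 : Function.surjInv hs y ∈ f ⁻¹' V ↔ Function.surjInv hs y ∈ a ⁻¹' U := by
        rw [hV2]
      rw [Set.mem_preimage, Function.surjInv_eq hs] at h3
      exact h3.symm
    rw [this]
    exact hV
  · exact h1 _ _ (Function.surjInv_eq hs _)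
  · rw [hab, Function.surjInv_eq hs]

theorem mem_T_inj (g : X → Y) (hg : Continuous g) (h : Function.Injective g) :
    Mem cT.{u} g := mem_T g hg fun _ _ _ h' => h h'

theorem T_rlp : cT.{u}.rlp = Isos.{u} := by
  refine rlp_isos _ (fun A B _ _ f hc hi => mem_T_inj f hc hi) ?_
  exact mem_T _ (cont_toPt _) fun x x' hx _ => hx.eq

theorem T_llp : cT.{u}.llp = Is := by
  refine le_antisymm (le_of_mem _ _ fun A B _ _ f hf => ?_) (le_rlp_llp Is)
  refine (mem_Is f).2 ⟨hf.cont, surj_of_range f hf.cont (hf.liftL ?_),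
    inducing_of_sierp f hf.cont (hf.liftL ?_)⟩
  · exact mem_T_inj _ continuous_subtype_val Subtype.val_injective
  · exact mem_T _ (cont_toPt _) fun x x' hx _ => hx.eq

theorem E_llp : cE.{u}.llp = cS := by
  refine le_antisymm (le_of_mem _ _ fun A B _ _ f hf => ?_) (le_rlp_llp cS)
  exact (mem_S f).2 ⟨hf.cont, surj_of_range f hf.cont
    (hf.liftL ((mem_E _).2 IsEmbedding.subtypeVal))⟩

theorem J_llp : cJ.{u}.llp = cE := by
  refine le_antisymm (le_of_mem _ _ fun A B _ _ f hf => ?_) (le_rlp_llp cE)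
  exact (mem_E f).2 ⟨inducing_of_sierp f hf.cont (hf.liftL mem_J_sierp),
    inj_of_ind f (hf.liftL mem_J_ind)⟩

/-! ### clopen embeddings -/

theorem mem_Sg (f : A → B) (hf : Mem Sg.{u} f) : IsInducing f ∧ Function.Injective f ∧
    IsClopen (Set.range f) := by
  have hp : Mem SE.{u} (Sum.elim f id : A ⊕ B → B) :=
    (mem_SE _).2 ⟨hf.cont.sumElim continuous_id, Sum.inr, continuous_inr, fun _ => rfl⟩
  obtain ⟨h, hc, h1, h2⟩ := hf.liftL hp Sum.inl id continuous_inl continuous_id (fun _ => rfl)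
  have hcomp : h ∘ f = Sum.inl := funext h1
  have hr : Set.range f = h ⁻¹' (Set.range (Sum.inl : A → A ⊕ B)) := by
    ext y
    constructor
    · rintro ⟨x, rfl⟩
      exact ⟨x, (h1 x).symm⟩
    · rintro ⟨x, hx⟩
      refine ⟨x, ?_⟩
      have h3 := h2 y
      rw [← hx] at h3
      exact h3
  refine ⟨?_, ?_, ?_⟩
  · refine IsInducing.of_comp hf.cont hc ?_
    rw [hcomp]
    exact IsEmbedding.inl.toIsInducing
  · intro x x' hx
    have e1 := h1 x
    rw [hx, h1] at e1
    exact Sum.inl_injective e1.symm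
  · rw [hr]
    exact (isClopen_range_inl).preimage hc

/-- the image meets every nonempty clopen set -/
def Pd (f : A → B) : Prop := ∀ V : Set B, IsClopen V → (∀ x, f x ∉ V) → V = ∅

theorem mem_De_two : Mem De.{u} (fun _ : Pt.{u} => D2.x0.{u}) := by
  refine (mem_llp _ _).2 ⟨continuous_const, ?_⟩
  intro X Y _ _ g hg a b ha hb hab
  obtain ⟨hc, hs⟩ := (mem_S g).1 hg
  obtain ⟨x, hx⟩ := hs (b D2.x1)
  refine ⟨fun t => match t with | D2.x0 => a PUnit.unit | D2.x1 => x,
    continuous_of_discreteTopology, fun _ => rfl, ?_⟩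
  intro t
  cases t
  · exact hab PUnit.unit
  · exact hx

theorem pd_of_De (f : A → B) (hf : Mem De.{u}.llp f) : Pd f := by
  classical
  intro V hV hVf
  have hb : Continuous (fun y : B => if y ∈ V then D2.x1 else D2.x0) := by
    rw [continuous_discrete_rng]
    intro t
    cases t
    · have : (fun y : B => if y ∈ V then D2.x1 else D2.x0) ⁻¹' {D2.x0} = Vᶜ := by
        ext y
        by_cases hy : y ∈ V <;> simp [hy]
      rw [this]
      exact hV.compl.isOpen
    · have : (fun y : B => if y ∈ V then D2.x1 else D2.x0) ⁻¹' {D2.x1} = V := by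
        ext y
        by_cases hy : y ∈ V <;> simp [hy]
      rw [this]
      exact hV.isOpen
  obtain ⟨h, -, -, h2⟩ := hf.liftL mem_De_two (toPt A) _ (cont_toPt A) hb
    (fun x => by simp [hVf x])
  ext y
  simp only [Set.mem_empty_iff_false, iff_false]
  intro hy
  have := h2 y
  rw [if_pos hy] at this
  cases this

theorem Sg_of_pd (f : A → B) (hf : Continuous f) (h : Pd f) : Mem Sg.{u}.llp f := by
  refine (mem_llp _ _).2 ⟨hf, ?_⟩
  intro X Y _ _ g hg
  obtain ⟨hi, hinj, hcl⟩ := mem_Sg g hg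
  refine lift_of_inj_inducing f g hi hinj ?_
  intro a b hb hab y
  by_contra hy
  have h3 := h (b ⁻¹' (Set.range g))ᶜ (hcl.preimage hb).compl (by
    intro x hx
    exact hx ⟨a x, hab x⟩)
  have : y ∈ (b ⁻¹' (Set.range g))ᶜ := fun hx => hy hx
  rw [h3] at this
  exact this

theorem Sg_llp : Sg.{u}.llp = C11 := by
  refine le_antisymm (llp_anti (llp_anti SE_le_S)) (le_of_mem _ _ fun A B _ _ f hf => ?_)
  exact Sg_of_pd f hf.cont (pd_of_De f hf)

theorem mem_C11 (f : A → B) : Mem C11.{u} f ↔ Continuous f ∧ Pd f := by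
  constructor
  · intro hf
    exact ⟨hf.cont, pd_of_De f hf⟩
  · rintro ⟨hc, hp⟩
    rw [← Sg_llp]
    exact Sg_of_pd f hc hp

theorem mem_C11_dense (f : A → B) (hf : Continuous f) (hd : DenseRange f) :
    Mem C11.{u} f := by
  refine (mem_C11 f).2 ⟨hf, ?_⟩
  intro V hV hVf
  by_contra hne
  obtain ⟨x, hx⟩ := hd.exists_mem_open hV.isOpen (Set.nonempty_iff_ne_empty.2 hne)
  exact hVf x hx

theorem C11_llp : C11.{u}.llp = Isos.{u} := by
  refine llp_isos _ (fun A B _ _ f hc hs => mem_C11_dense f hc hs.denseRange) ?_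
  refine mem_C11_dense _ continuous_const ?_
  intro y
  rw [mem_closure_iff]
  intro U hU hy
  have : U = Set.univ := by
    rcases (TopologicalSpace.isOpen_top_iff U).1 hU with h | h
    · rw [h] at hy
      exact hy.elim
    · exact h
  rw [this]
  exact ⟨I2.x0, trivial, PUnit.unit, rfl⟩

/-- maps lifting on the right against all dense maps are closed embeddings -/
theorem closedEmb_of (C : Cls.{u})
    (hC : ∀ (A B : Type u) [TopologicalSpace A] [TopologicalSpace B] (f : A → B),
      Continuous f → DenseRange f → Mem C f) (g : X → Y) (hg : Mem C.rlp g) :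
    IsClosedEmbedding g := by
  have hE : IsEmbedding g := by
    refine ⟨inducing_of_wt g hg.cont (hg.liftR ?_), inj_of_two g (hg.liftR ?_)⟩
    · exact hC _ _ _ (cont_toWt g hg.cont)
        (Function.Surjective.denseRange (fun x => ⟨x, rfl⟩))
    · exact hC _ _ _ (cont_toPt _)
        (Function.Surjective.denseRange (fun _ => ⟨D2.x0, rfl⟩))
  refine ⟨hE, ?_⟩
  let i : X → closure (Set.range g) := fun x => ⟨g x, subset_closure ⟨x, rfl⟩⟩
  have hi : Continuous i := hg.cont.subtype_mk _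
  have hd : DenseRange i := by
    intro y
    rw [mem_closure_iff]
    intro U hU hy
    obtain ⟨W, hW, rfl⟩ := isOpen_induced_iff.1 hU
    obtain ⟨z, hz, x, rfl⟩ := mem_closure_iff.1 y.2 W hW hy
    exact ⟨i x, hz, x, rfl⟩
  obtain ⟨h, -, -, h2⟩ := hg.liftR (hC _ _ i hi hd) id Subtype.val continuous_id
    continuous_subtype_val (fun _ => rfl)
  rw [← closure_subset_iff_isClosed]
  intro y hy
  exact ⟨h ⟨y, hy⟩, h2 ⟨y, hy⟩⟩

theorem closedEmb_of_K (g : X → Y) (hg : Mem cK.{u} g) : IsClosedEmbedding g :=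
  closedEmb_of C11 (fun _ _ _ _ f hc hd => mem_C11_dense f hc hd) g hg

/-! ### generic sections -/

/-- the map has a section whose values are generic in the fibres -/
def Gex (g : X → Y) : Prop :=
  ∃ s : Y → X, Continuous s ∧ (∀ y, g (s y) = y) ∧ ∀ x, s (g x) ⤳ x

theorem lift_closed_gex (f : A → B) (g : X → Y) (hf : IsClosedEmbedding f) (hg : Gex g) :
    Lift f g := by
  classical
  obtain ⟨s, hs, hs1, hs2⟩ := hg
  intro a b ha hb hab
  let h : B → X := fun y => if hy : ∃ x, f x = y then a hy.choose else s (b y)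
  have h1 : ∀ x, h (f x) = a x := by
    intro x
    have hy : ∃ x', f x' = f x := ⟨x, rfl⟩
    change (if hy : ∃ x', f x' = f x then a hy.choose else _) = a x
    rw [dif_pos hy]
    exact congrArg a (hf.injective hy.choose_spec)
  have h0 : ∀ y, ¬ (∃ x, f x = y) → h y = s (b y) := fun y hy => dif_neg hy
  refine ⟨h, ?_, h1, ?_⟩
  · rw [continuous_def]
    intro W hW
    obtain ⟨U, hU, hU2⟩ := hf.isInducing.isOpen_iff.1 (hW.preimage ha)
    have hZ : IsOpen ((fun y => s (b y)) ⁻¹' W) := hW.preimage (hs.comp hb)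
    have key : h ⁻¹' W = (U ∩ (fun y => s (b y)) ⁻¹' W) ∪
        ((fun y => s (b y)) ⁻¹' W ∩ (Set.range f)ᶜ) := by
      ext y
      by_cases hy : ∃ x, f x = y
      · obtain ⟨x, rfl⟩ := hy
        have e1 : f x ∈ U ↔ a x ∈ W := by
          have : x ∈ f ⁻¹' U ↔ x ∈ a ⁻¹' W := by rw [hU2]
          exact this
        have e2 : a x ∈ W → s (b (f x)) ∈ W := by
          intro hx
          rw [← hab]
          exact (hs2 (a x)).mem_open hW hx
        have e3 : f x ∈ Set.range f := ⟨x, rfl⟩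
        simp only [Set.mem_preimage, Set.mem_union, Set.mem_inter_iff, Set.mem_compl_iff,
          h1, e3, not_true, and_false, or_false, e1]
        exact ⟨fun hx => ⟨hx, e2 hx⟩, fun hx => hx.1⟩
      · have e3 : y ∉ Set.range f := hy
        simp only [Set.mem_preimage, Set.mem_union, Set.mem_inter_iff, Set.mem_compl_iff,
          h0 y hy, e3, not_false_iff, and_true]
        tauto
    rw [key]
    exact (hU.inter hZ).union (hZ.inter hf.isClosed_range.isOpen_compl)
  · intro y
    by_cases hy : ∃ x, f x = y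
    · obtain ⟨x, rfl⟩ := hy
      rw [h1, hab]
    · rw [h0 y hy, hs1]

theorem G_of_gex (g : X → Y) (hg : Continuous g) (h : Gex g) : Mem cG.{u} g :=
  (mem_rlp _ _).2 ⟨hg, fun _ _ _ _ f hf => lift_closed_gex f g (closedEmb_of_K f hf) h⟩

theorem mem_CE_of (f : A → B) (hf : Continuous f) (h : ∀ (X Y : Type u) [TopologicalSpace X]
    [TopologicalSpace Y] (g : X → Y), Mem cG.{u} g → Gex g) (hc : IsClosedEmbedding f) :
    Mem CE.{u} f :=
  (mem_llp _ _).2 ⟨hf, fun X Y _ _ g hg => lift_closed_gex f g hc (h X Y g hg)⟩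

end

end Pool.Agent.X238.Orth
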