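import Pool.Agent.X238.Orth.Classes

/-!
# The test maps for the generic sections, the closed embeddings and the last collapse
-/

namespace Pool.Agent.X238.Orth

set_option linter.unusedSectionVars false
set_option linter.unusedVariables false

open CategoryTheory Topology

universe u

/-! ### first test space -/

/-- `X` together with many copies of `Y` -/
inductive X2 {X Y : Type u} (g : X → Y) (D S : Type u) : Type u
  | x (a : X)
  | s (y : Y) (d : D)

/-- small sets -/
def Small {D : Type u} (S : Type u) (N : Set D) : Prop :=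
  Cardinal.mk N ≤ max Cardinal.aleph0 (Cardinal.mk S)

theorem small_union {D : Type u} (S : Type u) (N N' : Set D) (h : Small S N) (h' : Small S N') :
    Small S (N ∪ N') := by
  refine (Cardinal.mk_union_le N N').trans ?_
  refine (add_le_add h h').trans ?_
  rw [Cardinal.add_eq_self (le_max_left _ _)]

theorem small_single {D : Type u} (S : Type u) (d : D) : Small S ({d} : Set D) := by
  unfold Small
  rw [Cardinal.mk_singleton]
  exact (Cardinal.one_le_aleph0).trans (le_max_left _ _)

theorem small_empty {D : Type u} (S : Type u) : Small S (∅ : Set D) := by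
  unfold Small
  rw [Cardinal.mk_eq_zero]
  exact bot_le

instance {X Y : Type u} [TopologicalSpace X] [TopologicalSpace Y] (g : X → Y) (D S : Type u) :
    TopologicalSpace (X2 g D S) where
  IsOpen O := IsOpen {a | X2.x a ∈ O} ∧ (∀ d, IsOpen {y | X2.s y d ∈ O}) ∧
    ∀ a, X2.x a ∈ O → ∃ V : Set Y, IsOpen V ∧ g a ∈ V ∧ ∃ N : Set D, Small S N ∧
      ∀ y ∈ V, ∀ d, d ∉ N → X2.s y d ∈ O
  isOpen_univ := ⟨by simp, fun d => by simp, fun a _ => ⟨Set.univ, isOpen_univ, trivial, ∅,
    small_empty S, fun _ _ _ _ => trivial⟩⟩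
  isOpen_inter := by
    rintro O O' ⟨h1, h2, h3⟩ ⟨h1', h2', h3'⟩
    refine ⟨h1.inter h1', fun d => (h2 d).inter (h2' d), ?_⟩
    rintro a ⟨ha, ha'⟩
    obtain ⟨V, hV, hgV, N, hN, hVN⟩ := h3 a ha
    obtain ⟨V', hV', hgV', N', hN', hVN'⟩ := h3' a ha'
    refine ⟨V ∩ V', hV.inter hV', ⟨hgV, hgV'⟩, N ∪ N', small_union S N N' hN hN', ?_⟩
    intro y hy d hd
    exact ⟨hVN y hy.1 d (fun h => hd (Or.inl h)), hVN' y hy.2 d (fun h => hd (Or.inr h))⟩
  isOpen_sUnion := by
    intro F hF
    refine ⟨?_, fun d => ?_, ?_⟩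
    · have : {a | (X2.x a : X2 g D S) ∈ ⋃₀ F} = ⋃ O ∈ F, {a | X2.x a ∈ O} := by
        ext a
        simp
      rw [this]
      exact isOpen_biUnion fun O hO => (hF O hO).1
    · have : {y | (X2.s y d : X2 g D S) ∈ ⋃₀ F} = ⋃ O ∈ F, {y | X2.s y d ∈ O} := by
        ext a
        simp
      rw [this]
      exact isOpen_biUnion fun O hO => (hF O hO).2.1 d
    · rintro a ⟨O, hO, ha⟩
      obtain ⟨V, hV, hgV, N, hN, hVN⟩ := (hF O hO).2.2 a ha
      exact ⟨V, hV, hgV, N, hN, fun y hy d hd => ⟨O, hO, hVN y hy d hd⟩⟩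

section

variable {A B X Y : Type u} [TopologicalSpace A] [TopologicalSpace B] [TopologicalSpace X]
  [TopologicalSpace Y]

theorem cont_x2 (g : X → Y) (D S : Type u) : Continuous (X2.x : X → X2 g D S) := by
  rw [continuous_def]
  intro O hO
  exact hO.1

theorem cont_s2 (g : X → Y) (D S : Type u) (d : D) :
    Continuous (fun y => (X2.s y d : X2 g D S)) := by
  rw [continuous_def]
  intro O hO
  exact hO.2.1 d

theorem clopen_slice (g : X → Y) (D S : Type u) (d : D) :
    IsClopen {p : X2 g D S | ∃ y, p = X2.s y d} := by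
  classical
  constructor
  · rw [← isOpen_compl_iff]
    refine ⟨?_, fun d' => ?_, ?_⟩
    · have : {a | (X2.x a : X2 g D S) ∈ {p : X2 g D S | ∃ y, p = X2.s y d}ᶜ} = Set.univ := by
        ext a
        simp
      rw [this]
      exact isOpen_univ
    · by_cases hd : d' = d
      · have : {y | (X2.s y d' : X2 g D S) ∈ {p : X2 g D S | ∃ y, p = X2.s y d}ᶜ} = ∅ := by
          ext a
          simp [hd]
        rw [this]
        exact isOpen_empty
      · have : {y | (X2.s y d' : X2 g D S) ∈ {p : X2 g D S | ∃ y, p = X2.s y d}ᶜ} =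
            Set.univ := by
          ext a
          simp [hd]
        rw [this]
        exact isOpen_univ
    · intro a _
      refine ⟨Set.univ, isOpen_univ, trivial, {d}, small_single S d, ?_⟩
      rintro y - d' hd' ⟨y', hy'⟩
      cases hy'
      exact hd' rfl
  · refine ⟨?_, fun d' => ?_, ?_⟩
    · have : {a | (X2.x a : X2 g D S) ∈ {p : X2 g D S | ∃ y, p = X2.s y d}} = ∅ := by
        ext a
        simp
      rw [this]
      exact isOpen_empty
    · by_cases hd : d' = d
      · have : {y | (X2.s y d' : X2 g D S) ∈ {p : X2 g D S | ∃ y, p = X2.s y d}} =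
            Set.univ := by
          ext a
          simp [hd]
        rw [this]
        exact isOpen_univ
      · have : {y | (X2.s y d' : X2 g D S) ∈ {p : X2 g D S | ∃ y, p = X2.s y d}} = ∅ := by
          ext a
          simp [hd]
        rw [this]
        exact isOpen_empty
    · rintro a ⟨y, hy⟩
      cases hy

theorem mem_K_x2 (g : X → Y) (D S : Type u) : Mem cK.{u} (X2.x : X → X2 g D S) := by
  refine (mem_rlp _ _).2 ⟨cont_x2 g D S, ?_⟩
  intro A B _ _ f hf a b ha hb hab
  obtain ⟨hc, hp⟩ := (mem_C11 f).1 hf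
  have key : ∀ y, ∃ x, b y = X2.x x := by
    intro y
    cases hy : b y with
    | x a' => exact ⟨a', rfl⟩
    | s y' d =>
      exfalso
      have h1 := hp (b ⁻¹' {p : X2 g D S | ∃ y, p = X2.s y d})
        ((clopen_slice g D S d).preimage hb) (by
          rintro x ⟨y'', hx⟩
          rw [← hab] at hx
          cases hx)
      have : y ∈ b ⁻¹' {p : X2 g D S | ∃ y, p = X2.s y d} := ⟨y', hy⟩
      rw [h1] at this
      exact this
  choose k hk using key
  refine ⟨k, ?_, fun x => ?_, fun y => (hk y).symm⟩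
  · rw [continuous_def]
    intro W hW
    have hO : IsOpen {p : X2 g D S | ∀ a, p = X2.x a → a ∈ W} := by
      refine ⟨?_, fun d => ?_, ?_⟩
      · have : {a | (X2.x a : X2 g D S) ∈ {p : X2 g D S | ∀ a, p = X2.x a → a ∈ W}} = W := by
          ext a
          simp
        rw [this]
        exact hW
      · have : {y | (X2.s y d : X2 g D S) ∈ {p : X2 g D S | ∀ a, p = X2.x a → a ∈ W}} =
            Set.univ := by
          ext a
          simp
        rw [this]
        exact isOpen_univ
      · intro a _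
        refine ⟨Set.univ, isOpen_univ, trivial, ∅, small_empty S, ?_⟩
        intro y _ d _ a' ha'
        cases ha'
    have : k ⁻¹' W = b ⁻¹' {p : X2 g D S | ∀ a, p = X2.x a → a ∈ W} := by
      ext y
      constructor
      · intro hy a' ha'
        have h3 := hk y
        rw [ha'] at h3
        rw [X2.x.inj h3]
        exact hy
      · intro hy
        exact hy _ (hk y)
    rw [this]
    exact hO.preimage hb
  · have h3 := hk (f x)
    rw [← hab] at h3
    exact (X2.x.inj h3).symm

/-- the projection of the first test space -/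
def pr2 (g : X → Y) (D S : Type u) : X2 g D S → Y
  | X2.x a => g a
  | X2.s y _ => y

theorem cont_pr2 (g : X → Y) (hg : Continuous g) (D S : Type u) :
    Continuous (pr2 g D S) := by
  rw [continuous_def]
  intro V hV
  exact ⟨hV.preimage hg, fun _ => hV, fun a ha => ⟨V, hV, ha, ∅, small_empty S,
    fun y hy _ _ => hy⟩⟩

theorem gex_of_G (g : X → Y) (hg : Mem cG.{u} g) : Gex g := by
  classical
  let S : Type u := C(Y, X)
  let D : Type u := Set (S ⊕ ULift.{u} ℕ)
  obtain ⟨h, hh, h1, h2⟩ := hg.liftR (mem_K_x2 g D S) id (pr2 g D S) continuous_id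
    (cont_pr2 g hg.cont D S) (fun _ => rfl)
  let φ : D → S := fun d => ⟨fun y => h (X2.s y d), hh.comp (cont_s2 g D S d)⟩
  obtain ⟨σ, hσ⟩ : ∃ σ : S, ¬ Small S (φ ⁻¹' {σ}) := by
    by_contra hcon
    push Not at hcon
    have h3 : Cardinal.mk D ≤ Cardinal.mk S * max Cardinal.aleph0 (Cardinal.mk S) :=
      Cardinal.mk_le_mk_mul_of_mk_preimage_le φ hcon
    have h4 : Cardinal.mk S * max Cardinal.aleph0 (Cardinal.mk S) ≤
        max Cardinal.aleph0 (Cardinal.mk S) := by
      refine (mul_le_mul_left (le_max_right Cardinal.aleph0 (Cardinal.mk S)) _).trans ?_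
      rw [Cardinal.mul_eq_self (le_max_left _ _)]
    have h5 : max Cardinal.aleph0 (Cardinal.mk S) ≤ Cardinal.mk (S ⊕ ULift.{u} ℕ) := by
      rw [Cardinal.mk_sum]
      refine max_le ?_ ?_
      · simp
      · simp
    have h6 : Cardinal.mk (S ⊕ ULift.{u} ℕ) < Cardinal.mk D := by
      have : Cardinal.mk D = 2 ^ Cardinal.mk (S ⊕ ULift.{u} ℕ) := Cardinal.mk_set
      rw [this]
      exact Cardinal.cantor _
    exact absurd (h3.trans (h4.trans h5)) (not_le.2 h6)
  refine ⟨σ, σ.continuous, ?_, ?_⟩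
  · intro y
    have hne : (φ ⁻¹' {σ}).Nonempty := by
      by_contra hne
      rw [Set.not_nonempty_iff_eq_empty] at hne
      rw [hne] at hσ
      exact hσ (small_empty S)
    obtain ⟨d, hd⟩ := hne
    have hd' : φ d = σ := hd
    rw [← hd']
    exact h2 (X2.s y d)
  · intro x
    rw [specializes_iff_forall_open]
    intro W hW hx
    have hO : IsOpen (h ⁻¹' W) := hW.preimage hh
    have hx' : X2.x x ∈ h ⁻¹' W := by
      change h (X2.x x) ∈ W
      rw [h1]
      exact hx
    obtain ⟨V, -, hgV, N, hN, hVN⟩ := hO.2.2 x hx'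
    have : ¬ (φ ⁻¹' {σ} ⊆ N) := by
      intro hsub
      exact hσ ((Cardinal.mk_le_mk_of_subset hsub).trans hN)
    obtain ⟨d, hd, hdN⟩ := Set.not_subset.1 this
    have hd' : φ d = σ := hd
    have h3 := hVN (g x) hgV d hdN
    rw [← hd']
    exact h3

theorem mem_G (g : X → Y) : Mem cG.{u} g ↔ Continuous g ∧ Gex g :=
  ⟨fun h => ⟨h.cont, gex_of_G g h⟩, fun h => G_of_gex g h.1 h.2⟩

end

/-! ### second test space -/

/-- two copies of a map glued by specialization -/
inductive X3 {A B : Type u} (f : A → B) : Type u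
  | a (x : A)
  | b (y : B)

instance {A B : Type u} [TopologicalSpace A] [TopologicalSpace B] (f : A → B) :
    TopologicalSpace (X3 f) where
  IsOpen O := IsOpen {x | X3.a x ∈ O} ∧ IsOpen {y | X3.b y ∈ O} ∧
    ∀ x, X3.a x ∈ O → X3.b (f x) ∈ O
  isOpen_univ := ⟨by simp, by simp, fun _ _ => trivial⟩
  isOpen_inter := by
    rintro O O' ⟨h1, h2, h3⟩ ⟨h1', h2', h3'⟩
    exact ⟨h1.inter h1', h2.inter h2', fun x hx => ⟨h3 x hx.1, h3' x hx.2⟩⟩
  isOpen_sUnion := by
    intro F hF
    refine ⟨?_, ?_, ?_⟩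
    · have : {a | (X3.a a : X3 f) ∈ ⋃₀ F} = ⋃ O ∈ F, {a | X3.a a ∈ O} := by
        ext a
        simp
      rw [this]
      exact isOpen_biUnion fun O hO => (hF O hO).1
    · have : {a | (X3.b a : X3 f) ∈ ⋃₀ F} = ⋃ O ∈ F, {a | X3.b a ∈ O} := by
        ext a
        simp
      rw [this]
      exact isOpen_biUnion fun O hO => (hF O hO).2.1
    · rintro a ⟨O, hO, ha⟩
      exact ⟨O, hO, (hF O hO).2.2 a ha⟩

section

variable {A B X Y : Type u} [TopologicalSpace A] [TopologicalSpace B] [TopologicalSpace X]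
  [TopologicalSpace Y]

/-- the projection of the second test space -/
def pr3 (f : A → B) : X3 f → B
  | X3.a x => f x
  | X3.b y => y

theorem cont_pr3 (f : A → B) (hf : Continuous f) : Continuous (pr3 f) := by
  rw [continuous_def]
  intro V hV
  exact ⟨hV.preimage hf, hV, fun a ha => ha⟩

theorem cont_a3 (f : A → B) : Continuous (X3.a : A → X3 f) := by
  rw [continuous_def]
  intro O hO
  exact hO.1

theorem cont_b3 (f : A → B) : Continuous (X3.b : B → X3 f) := by
  rw [continuous_def]
  intro O hO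
  exact hO.2.1

theorem inducing_a3 (f : A → B) : IsInducing (X3.a : A → X3 f) := by
  refine ⟨le_antisymm (continuous_iff_le_induced.1 (cont_a3 f)) ?_⟩
  intro W hW
  refine ⟨{p | ∀ x, p = X3.a x → x ∈ W}, ⟨?_, ?_, ?_⟩, ?_⟩
  · have : {a | (X3.a a : X3 f) ∈ {p | ∀ x, p = X3.a x → x ∈ W}} = W := by
      ext a
      simp
    rw [this]
    exact hW
  · have : {a | (X3.b a : X3 f) ∈ {p | ∀ x, p = X3.a x → x ∈ W}} = Set.univ := by
      ext a
      simp
    rw [this]
    exact isOpen_univ
  · intro x _ x' hx'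
    cases hx'
  · ext a
    simp

theorem gex_pr3 (f : A → B) : Gex (pr3 f) := by
  refine ⟨X3.b, cont_b3 f, fun _ => rfl, ?_⟩
  intro p
  rw [specializes_iff_forall_open]
  intro O hO hp
  cases p with
  | a x => exact hO.2.2 x hp
  | b y => exact hp

theorem mem_CE (f : A → B) : Mem CE.{u} f ↔ IsClosedEmbedding f := by
  constructor
  · intro hf
    have hp : Mem cG.{u} (pr3 f) := (mem_G _).2 ⟨cont_pr3 f hf.cont, gex_pr3 f⟩
    obtain ⟨h, hh, h1, h2⟩ := hf.liftL hp X3.a id (cont_a3 f) continuous_id (fun _ => rfl)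
    have hcomp : h ∘ f = X3.a := funext h1
    refine ⟨⟨?_, ?_⟩, ?_⟩
    · refine IsInducing.of_comp hf.cont hh ?_
      rw [hcomp]
      exact inducing_a3 f
    · intro x x' hx
      have e1 := h1 x
      rw [hx, h1] at e1
      exact (X3.a.inj e1).symm
    · rw [← isOpen_compl_iff]
      have hO : IsOpen {p : X3 f | ∃ y, p = X3.b y} := by
        refine ⟨?_, ?_, ?_⟩
        · have : {a | (X3.a a : X3 f) ∈ {p : X3 f | ∃ y, p = X3.b y}} = ∅ := by
            ext a
            simp
          rw [this]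
          exact isOpen_empty
        · have : {a | (X3.b a : X3 f) ∈ {p : X3 f | ∃ y, p = X3.b y}} = Set.univ := by
            ext a
            simp
          rw [this]
          exact isOpen_univ
        · rintro x ⟨y, hy⟩
          cases hy
      have : (Set.range f)ᶜ = h ⁻¹' {p : X3 f | ∃ y, p = X3.b y} := by
        ext y
        constructor
        · intro hy
          change ∃ y', h y = X3.b y'
          cases hhy : h y with
          | a x =>
            exfalso
            have h3 := h2 y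
            rw [hhy] at h3
            exact hy ⟨x, h3⟩
          | b y' => exact ⟨y', rfl⟩
        · rintro ⟨y', hy'⟩ ⟨x, rfl⟩
          rw [h1] at hy'
          cases hy'
      rw [this]
      exact hO.preimage hh
  · intro hf
    exact mem_CE_of f hf.continuous (fun X Y _ _ g hg => gex_of_G g hg) hf

theorem DM_of_dense (f : A → B) (hf : Continuous f) (hd : DenseRange f) : Mem DM.{u} f := by
  refine (mem_llp _ _).2 ⟨hf, ?_⟩
  intro X Y _ _ g hg
  have hc := (mem_CE g).1 hg
  refine lift_of_inj_inducing f g hc.isInducing hc.injective ?_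
  intro a b hb hab y
  have h1 : IsClosed (b ⁻¹' Set.range g) := hc.isClosed_range.preimage hb
  have h2 : Set.range f ⊆ b ⁻¹' Set.range g := by
    rintro _ ⟨x, rfl⟩
    exact ⟨a x, hab x⟩
  have h3 := h1.closure_subset_iff.2 h2 (hd y)
  exact h3

theorem DM_llp : DM.{u}.llp = Isos.{u} := by
  refine llp_isos _ (fun A B _ _ f hc hs => DM_of_dense f hc hs.denseRange) ?_
  refine DM_of_dense _ continuous_const ?_
  intro y
  rw [mem_closure_iff]
  intro U hU hy
  have : U = Set.univ := by
    rcases (TopologicalSpace.isOpen_top_iff U).1 hU with h | h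
    · rw [h] at hy
      exact hy.elim
    · exact h
  rw [this]
  exact ⟨I2.x0, trivial, PUnit.unit, rfl⟩

theorem DM_rlp : DM.{u}.rlp = CE := by
  refine le_antisymm (le_of_mem _ _ fun X Y _ _ g hg => ?_) (le_llp_rlp CE)
  exact (mem_CE g).2 (closedEmb_of DM (fun _ _ _ _ f hc hd => DM_of_dense f hc hd) g hg)

/-! ### maps with T1 fibres -/

theorem K_le_E : cK.{u} ≤ cE := by
  refine le_of_mem _ _ fun A B _ _ f hf => ?_
  exact (mem_E f).2 (closedEmb_of_K f hf).isEmbedding

theorem J_le_G : cJ.{u} ≤ cG := rlp_anti K_le_E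

theorem T1_imp (g : X → Y) (hg : Mem T1.{u} g) : T1f g :=
  t1_of_sierp g hg.cont (hg.liftR mem_J_sierp)

theorem Gr_of_T1 (g : X → Y) (hg : Continuous g) (h : T1f g) : Mem cG.{u}.rlp g := by
  refine (mem_rlp _ _).2 ⟨hg, ?_⟩
  intro A B _ _ f hf a b ha hb hab
  obtain ⟨hc, s, hs, hs1, hs2⟩ := (mem_G f).1 hf
  refine ⟨fun y => a (s y), ha.comp hs, fun x => ?_, fun y => ?_⟩
  · refine h _ _ ((hs2 x).map ha) ?_
    rw [hab, hab, hs1]
  · rw [hab, hs1]

theorem G_rlp : cG.{u}.rlp = T1 := by
  refine le_antisymm (rlp_anti J_le_G) (le_of_mem _ _ fun X Y _ _ g hg => ?_)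
  exact Gr_of_T1 g hg.cont (T1_imp g hg)

theorem mem_T1 (g : X → Y) : Mem T1.{u} g ↔ Continuous g ∧ T1f g := by
  constructor
  · intro h
    exact ⟨h.cont, T1_imp g h⟩
  · rintro ⟨hg, h⟩
    rw [← G_rlp]
    exact Gr_of_T1 g hg h

theorem T1_rlp : T1.{u}.rlp = Isos.{u} := by
  refine rlp_isos _ (fun A B _ _ f hc hi => (mem_T1 f).2 ⟨hc, fun _ _ _ h => hi h⟩) ?_
  exact (mem_T1 _).2 ⟨cont_toPt _, fun x x' hx _ => hx.eq⟩

theorem M_le_T1 : cM.{u} ≤ T1 := by
  refine le_of_mem _ _ fun A B _ _ f hf => ?_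
  obtain ⟨hc, hi⟩ := (mem_M f).1 hf
  exact (mem_T1 f).2 ⟨hc, fun _ _ _ h => hi h⟩

theorem Q_le_S : cQ.{u} ≤ cS := by
  refine le_of_mem _ _ fun A B _ _ f hf => ?_
  exact (mem_S f).2 ⟨hf.cont, surj_of_range f hf.cont
    (hf.liftL ((mem_M _).2 ⟨continuous_subtype_val, Subtype.val_injective⟩))⟩

theorem C18_le_Q : C18.{u} ≤ cQ := llp_anti M_le_T1

end

/-! ### third test space -/

/-- the third test space -/
inductive X1 {A B : Type u} (f : A → B) : Type u
  | a (x : A)
  | c (y : B)
  | e (y : B)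
  | n (d y : B) (k : ℕ)

instance {A B : Type u} [TopologicalSpace A] [TopologicalSpace B] (f : A → B) :
    TopologicalSpace (X1 f) where
  IsOpen O := IsOpen {x | X1.a x ∈ O} ∧
    (∀ y, X1.c y ∈ O → X1.e y ∈ O ∧ (∀ x, f x = y → X1.a x ∈ O) ∧
      ∀ d k, X1.n d y k ∈ O) ∧
    ∀ y, X1.e y ∈ O → ∃ V : Set B, IsOpen V ∧ y ∈ V ∧ ∀ z ∈ V, {k | X1.n y z k ∉ O}.Finite
  isOpen_univ := ⟨by simp, fun _ _ => ⟨trivial, fun _ _ => trivial, fun _ _ => trivial⟩,
    fun y _ => ⟨Set.univ, isOpen_univ, trivial, fun z _ => by simp⟩⟩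
  isOpen_inter := by
    rintro O O' ⟨h1, h2, h3⟩ ⟨h1', h2', h3'⟩
    refine ⟨h1.inter h1', ?_, ?_⟩
    · intro y hy
      exact ⟨⟨(h2 y hy.1).1, (h2' y hy.2).1⟩,
        fun x hx => ⟨(h2 y hy.1).2.1 x hx, (h2' y hy.2).2.1 x hx⟩,
        fun d k => ⟨(h2 y hy.1).2.2 d k, (h2' y hy.2).2.2 d k⟩⟩
    · intro y hy
      obtain ⟨V, hV, hyV, hf⟩ := h3 y hy.1
      obtain ⟨V', hV', hyV', hf'⟩ := h3' y hy.2
      refine ⟨V ∩ V', hV.inter hV', ⟨hyV, hyV'⟩, fun z hz => ?_⟩
      refine ((hf z hz.1).union (hf' z hz.2)).subset ?_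
      intro k hk
      by_contra hcon
      simp only [Set.mem_union, Set.mem_ofPred_eq, not_or, not_not] at hcon
      exact hk ⟨hcon.1, hcon.2⟩
  isOpen_sUnion := by
    intro F hF
    refine ⟨?_, ?_, ?_⟩
    · have : {a | (X1.a a : X1 f) ∈ ⋃₀ F} = ⋃ O ∈ F, {a | X1.a a ∈ O} := by
        ext a
        simp
      rw [this]
      exact isOpen_biUnion fun O hO => (hF O hO).1
    · rintro y ⟨O, hO, hy⟩
      have h := (hF O hO).2.1 y hy
      exact ⟨⟨O, hO, h.1⟩, fun x hx => ⟨O, hO, h.2.1 x hx⟩, fun d k => ⟨O, hO, h.2.2 d k⟩⟩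
    · rintro y ⟨O, hO, hy⟩
      obtain ⟨V, hV, hyV, hf⟩ := (hF O hO).2.2 y hy
      refine ⟨V, hV, hyV, fun z hz => (hf z hz).subset ?_⟩
      intro k hk hk'
      exact hk ⟨O, hO, hk'⟩

section

variable {A B X Y : Type u} [TopologicalSpace A] [TopologicalSpace B] [TopologicalSpace X]
  [TopologicalSpace Y]

/-- the projection of the third test space -/
def pr1 (f : A → B) : X1 f → B
  | X1.a x => f x
  | X1.c y => y
  | X1.e y => y
  | X1.n _ y _ => y

theorem cont_pr1 (f : A → B) (hf : Continuous f) : Continuous (pr1 f) := by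
  rw [continuous_def]
  intro V hV
  refine ⟨hV.preimage hf, ?_, ?_⟩
  · intro y hy
    refine ⟨hy, fun x hx => ?_, fun _ _ => hy⟩
    change f x ∈ V
    rw [hx]
    exact hy
  · intro y hy
    refine ⟨V, hV, hy, fun z hz => ?_⟩
    have : {k : ℕ | (X1.n y z k : X1 f) ∉ pr1 f ⁻¹' V} = ∅ := by
      ext k
      simp only [Set.mem_ofPred_eq, Set.mem_empty_iff_false, iff_false, not_not]
      exact hz
    rw [this]
    exact Set.finite_empty

theorem cont_a1 (f : A → B) : Continuous (X1.a : A → X1 f) := by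
  rw [continuous_def]
  intro O hO
  exact hO.1

theorem open_a1 (f : A → B) (W : Set A) (hW : IsOpen W) :
    IsOpen {p : X1 f | ∃ x ∈ W, p = X1.a x} := by
  refine ⟨?_, ?_, ?_⟩
  · have : {a | (X1.a a : X1 f) ∈ {p : X1 f | ∃ x ∈ W, p = X1.a x}} = W := by
      ext a
      simp
    rw [this]
    exact hW
  · rintro y ⟨x, -, hx⟩
    cases hx
  · rintro y ⟨x, -, hx⟩
    cases hx

theorem inducing_a1 (f : A → B) : IsInducing (X1.a : A → X1 f) := by
  refine ⟨le_antisymm (continuous_iff_le_induced.1 (cont_a1 f)) ?_⟩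
  intro W hW
  refine ⟨_, open_a1 f W hW, ?_⟩
  ext a
  simp

theorem mem_C18_pr1 (f : A → B) (hf : Continuous f) : Mem C18.{u} (pr1 f) := by
  refine (mem_llp _ _).2 ⟨cont_pr1 f hf, ?_⟩
  intro Z W _ _ q hq a b ha hb hab
  obtain ⟨hqc, hT⟩ := (mem_T1 q).1 hq
  have hsp : ∀ t : X1 f, t ⤳ X1.c (pr1 f t) := by
    intro t
    rw [specializes_iff_forall_open]
    intro O hO ht
    have h := hO.2.1 _ ht
    cases t with
    | a x => exact h.2.1 x rfl
    | c y => exact ht
    | e y => exact h.1
    | n d y k => exact h.2.2 d k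
  have heq : ∀ t : X1 f, a t = a (X1.c (pr1 f t)) := by
    intro t
    refine hT _ _ ((hsp t).map ha) ?_
    rw [hab, hab]
    rfl
  refine ⟨fun y => a (X1.c y), ?_, fun t => (heq t).symm, fun y => hab _⟩
  rw [continuous_def]
  intro O hO
  rw [isOpen_iff_forall_mem_open]
  intro y hy
  have hO' : IsOpen (a ⁻¹' O) := hO.preimage ha
  have he : X1.e y ∈ a ⁻¹' O := by
    change a (X1.e y) ∈ O
    rw [heq]
    exact hy
  obtain ⟨V, hV, hyV, hfin⟩ := hO'.2.2 y he
  refine ⟨V, ?_, hV, hyV⟩
  intro z hz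
  obtain ⟨k, hk⟩ := (hfin z hz).infinite_compl.nonempty
  have hk' : a (X1.n y z k) ∈ O := by
    by_contra hcon
    exact hk hcon
  rw [heq] at hk'
  exact hk'

theorem De_of (f : A → B) (hf : IsOpenEmbedding f) (hd : ∀ y, y ∉ Set.range f → IsOpen {y}) :
    Mem De.{u} f := by
  classical
  refine (mem_llp _ _).2 ⟨hf.continuous, ?_⟩
  intro X Y _ _ g hg a b ha hb hab
  obtain ⟨hc, hs⟩ := (mem_S g).1 hg
  let h : B → X := fun y => if hy : ∃ x, f x = y then a hy.choose else Function.surjInv hs (b y)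
  have h1 : ∀ x, h (f x) = a x := by
    intro x
    have hy : ∃ x', f x' = f x := ⟨x, rfl⟩
    change (if hy : ∃ x', f x' = f x then a hy.choose else _) = a x
    rw [dif_pos hy]
    exact congrArg a (hf.injective hy.choose_spec)
  refine ⟨h, ?_, h1, ?_⟩
  · rw [continuous_iff_continuousAt]
    intro y
    by_cases hy : ∃ x, f x = y
    · obtain ⟨x, rfl⟩ := hy
      rw [← hf.continuousAt_iff]
      have : h ∘ f = a := funext h1
      rw [this]
      exact ha.continuousAt
    · have hO := hd y hy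
      have hn : 𝓝 y = pure y := by
        rw [isOpen_singleton_iff_nhds_eq_pure] at hO
        exact hO
      rw [ContinuousAt, hn]
      exact tendsto_pure_nhds h y
  · intro y
    by_cases hy : ∃ x, f x = y
    · obtain ⟨x, rfl⟩ := hy
      rw [h1, hab]
    · change g (if hy : ∃ x', f x' = y then a hy.choose else _) = b y
      rw [dif_neg hy]
      exact Function.surjInv_eq hs _

theorem C18_llp_le : C18.{u}.llp ≤ De := by
  classical
  refine le_of_mem _ _ fun A B _ _ f hf => ?_
  obtain ⟨h, hh, h1, h2⟩ := hf.liftL (mem_C18_pr1 f hf.cont) X1.a id (cont_a1 f)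
    continuous_id (fun _ => rfl)
  have hcomp : h ∘ f = X1.a := funext h1
  have hI : IsInducing f := by
    refine IsInducing.of_comp hf.cont hh ?_
    rw [hcomp]
    exact inducing_a1 f
  have hinj : Function.Injective f := by
    intro x x' hx
    have e1 := h1 x
    rw [hx, h1] at e1
    exact (X1.a.inj e1).symm
  have hr : Set.range f = h ⁻¹' {p : X1 f | ∃ x ∈ (Set.univ : Set A), p = X1.a x} := by
    ext y
    constructor
    · rintro ⟨x, rfl⟩
      exact ⟨x, trivial, h1 x⟩
    · rintro ⟨x, -, hx⟩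
      have h3 := h2 y
      rw [hx] at h3
      exact ⟨x, h3⟩
  have hopen : IsOpen (Set.range f) := by
    rw [hr]
    exact (open_a1 f _ isOpen_univ).preimage hh
  refine De_of f ⟨⟨hI, hinj⟩, hopen⟩ ?_
  intro b hb
  have hsec : ∀ y, pr1 f (h y) = y := h2
  cases hhb : h b with
  | a x =>
    exfalso
    have h3 := hsec b
    rw [hhb] at h3
    exact hb ⟨x, h3⟩
  | n d y k =>
    have hO : IsOpen {p : X1 f | p = X1.n d y k} := by
      refine ⟨?_, ?_, ?_⟩
      · have : {a | (X1.a a : X1 f) ∈ {p : X1 f | p = X1.n d y k}} = ∅ := by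
          ext a
          simp
        rw [this]
        exact isOpen_empty
      · intro z hz
        cases hz
      · intro z hz
        cases hz
    have hset : ({b} : Set B) = h ⁻¹' {p : X1 f | p = X1.n d y k} := by
      ext z
      constructor
      · rintro rfl
        exact hhb
      · intro hz
        have e1 := hsec z
        have e2 := hsec b
        rw [show h z = X1.n d y k from hz] at e1
        rw [hhb] at e2
        exact e1.symm.trans e2
    rw [hset]
    exact hO.preimage hh
  | c y =>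
    have hy : y = b := by
      have e2 := hsec b
      rw [hhb] at e2
      exact e2
    subst hy
    exact singleton_open_aux f h hh hsec y hb (Or.inl hhb)
  | e y =>
    have hy : y = b := by
      have e2 := hsec b
      rw [hhb] at e2
      exact e2
    subst hy
    exact singleton_open_aux f h hh hsec y hb (Or.inr hhb)
where
  singleton_open_aux {A B : Type u} [TopologicalSpace A] [TopologicalSpace B] (f : A → B)
      (h : B → X1 f) (hh : Continuous h) (hsec : ∀ y, pr1 f (h y) = y) (b : B)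
      (hb : b ∉ Set.range f) (hhb : h b = X1.c b ∨ h b = X1.e b) : IsOpen ({b} : Set B) := by
    have hO : IsOpen {p : X1 f | p = X1.c b ∨ p = X1.e b ∨ (∃ d k, p = X1.n d b k) ∨
        ∃ y k, p = X1.n b y k ∧ h y ≠ p} := by
      refine ⟨?_, ?_, ?_⟩
      · have : {a | (X1.a a : X1 f) ∈ {p : X1 f | p = X1.c b ∨ p = X1.e b ∨
            (∃ d k, p = X1.n d b k) ∨ ∃ y k, p = X1.n b y k ∧ h y ≠ p}} = ∅ := by
          ext a
          simp
        rw [this]
        exact isOpen_empty
      · intro z hz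
        have hz' : z = b := by
          rcases hz with hz | hz | ⟨d, k, hz⟩ | ⟨y, k, hz, -⟩
          · exact X1.c.inj hz
          · cases hz
          · cases hz
          · cases hz
        subst hz'
        refine ⟨Or.inr (Or.inl rfl), fun x hx => (hb ⟨x, hx⟩).elim, fun d k => ?_⟩
        exact Or.inr (Or.inr (Or.inl ⟨d, k, rfl⟩))
      · intro z hz
        have hz' : z = b := by
          rcases hz with hz | hz | ⟨d, k, hz⟩ | ⟨y, k, hz, -⟩
          · cases hz
          · exact X1.e.inj hz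
          · cases hz
          · cases hz
        subst hz'
        refine ⟨Set.univ, isOpen_univ, trivial, fun y _ => ?_⟩
        refine Set.Subsingleton.finite ?_
        intro k hk k' hk'
        have e1 : h y = X1.n z y k := by
          by_contra hcon
          exact hk (Or.inr (Or.inr (Or.inr ⟨y, k, rfl, hcon⟩)))
        have e2 : h y = X1.n z y k' := by
          by_contra hcon
          exact hk' (Or.inr (Or.inr (Or.inr ⟨y, k', rfl, hcon⟩)))
        rw [e1] at e2
        injection e2
    have hset : ({b} : Set B) = h ⁻¹' {p : X1 f | p = X1.c b ∨ p = X1.e b ∨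
        (∃ d k, p = X1.n d b k) ∨ ∃ y k, p = X1.n b y k ∧ h y ≠ p} := by
      ext z
      constructor
      · rintro rfl
        rcases hhb with h3 | h3
        · exact Or.inl h3
        · exact Or.inr (Or.inl h3)
      · intro hz
        have e1 := hsec z
        rcases hz with hz | hz | ⟨d, k, hz⟩ | ⟨y, k, hz, hne⟩
        · rw [hz] at e1
          exact e1.symm
        · rw [hz] at e1
          exact e1.symm
        · rw [hz] at e1
          exact e1.symm
        · exfalso
          rw [hz] at e1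
          have : y = z := e1
          subst this
          exact hne rfl
    rw [hset]
    exact hO.preimage hh

theorem C18_llp : C18.{u}.llp = De :=
  le_antisymm C18_llp_le (llp_anti (C18_le_Q.trans Q_le_S))

theorem Q_llp : cQ.{u}.llp = De :=
  le_antisymm ((llp_anti C18_le_Q).trans C18_llp_le) (llp_anti Q_le_S)

end

end Pool.Agent.X238.Orth
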